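import Pool.Agent.TF.Stmts

set_option autoImplicit false

namespace Pool.Agent.TF.H92

lemma H_eq (L : Lib) {Ω S T : Type} [Fintype Ω] (P : Law Ω) (X : Ω → S) (Y : Ω → T)
    (h1 : P.Det X Y) (h2 : P.Det Y X) : P.H X = P.H Y :=
  le_antisymm (L.mon.1 _ _ _ P Y X h2) (L.mon.1 _ _ _ P X Y h1)

section
variable {G : Type} [AddCommGroup G] [Fintype G] [DecidableEq G] {n : ℕ} (F : Fam G n) {R : ℕ}
  {Ω : Type} [Fintype Ω] (P : Law Ω) (x : Ω → G) (c : Ω → Fin R → Fin n)

lemma labs_update_self (τ : Fin R → Option Bool) (j : Fin R) (σ : Bool) (d : Fin R → Fin n) (y : G) :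
    F.labs (Function.update τ j (some σ)) d y j = some (F.lab σ (d j) y) := by
  simp [Fam.labs]

lemma labs_update_ne (τ : Fin R → Option Bool) (j : Fin R) (σ : Bool) (d : Fin R → Fin n) (y : G)
    (i : Fin R) (h : i ≠ j) :
    F.labs (Function.update τ j (some σ)) d y i = F.labs τ d y i := by
  simp [Fam.labs, Function.update_of_ne h]

lemma E_update (L : Lib) (τ : Fin R → Option Bool) (j : Fin R) (hj : τ j = none) (σ : Bool) :
    P.C x (fun ω => (F.labs (Function.update τ j (some σ)) (c ω) (x ω), c ω)) =
      P.C x (fun ω => (F.labs τ (c ω) (x ω), c ω)) -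
        P.C (fun ω => F.lab σ (c ω j) (x ω)) (fun ω => (F.labs τ (c ω) (x ω), c ω)) := by
  unfold Law.C
  have e1 : P.H (fun ω => (x ω, (F.labs (Function.update τ j (some σ)) (c ω) (x ω), c ω))) =
      P.H (fun ω => (x ω, (F.labs τ (c ω) (x ω), c ω))) := by
    apply H_eq L
    · intro ω ω' _ _ h
      simp only [Prod.mk.injEq] at h ⊢
      exact ⟨h.1, by rw [h.1, h.2.2], h.2.2⟩
    · intro ω ω' _ _ h
      simp only [Prod.mk.injEq] at h ⊢
      exact ⟨h.1, by rw [h.1, h.2.2], h.2.2⟩
  have e2 : P.H (fun ω => (F.labs (Function.update τ j (some σ)) (c ω) (x ω), c ω)) =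
      P.H (fun ω => (F.lab σ (c ω j) (x ω), (F.labs τ (c ω) (x ω), c ω))) := by
    apply H_eq L
    · intro ω ω' _ _ h
      simp only [Prod.mk.injEq] at h ⊢
      obtain ⟨h1, h2⟩ := h
      refine ⟨?_, ?_, h2⟩
      · have := congrFun h1 j
        rw [labs_update_self, labs_update_self] at this
        exact Option.some_injective _ this
      · funext i
        by_cases hij : i = j
        · subst hij
          simp [Fam.labs, hj]
        · have := congrFun h1 i
          rwa [labs_update_ne F τ j σ _ _ i hij, labs_update_ne F τ j σ _ _ i hij] at this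
    · intro ω ω' _ _ h
      simp only [Prod.mk.injEq] at h ⊢
      obtain ⟨h1, h2, h3⟩ := h
      refine ⟨?_, h3⟩
      funext i
      by_cases hij : i = j
      · subst hij
        rw [labs_update_self, labs_update_self, h1]
      · rw [labs_update_ne F τ j σ _ _ i hij, labs_update_ne F τ j σ _ _ i hij]
        exact congrFun h2 i
  rw [e1, e2]
  ring

lemma I_nonneg (L : Lib) (hD : ∀ ω, P.p ω ≠ 0 → ∀ i, x ω ∈ F.D (c ω i))
    (τ : Fin R → Option Bool) (j : Fin R) :
    P.C x (fun ω => (F.labs τ (c ω) (x ω), c ω)) ≤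
      P.C (fun ω => F.a (c ω j) (x ω)) (fun ω => (F.labs τ (c ω) (x ω), c ω)) +
      P.C (fun ω => F.b (c ω j) (x ω)) (fun ω => (F.labs τ (c ω) (x ω), c ω)) := by
  have h1 := L.sub Ω _ _ _ P (fun ω => F.a (c ω j) (x ω)) (fun ω => F.b (c ω j) (x ω))
    (fun ω => (F.labs τ (c ω) (x ω), c ω))
  have h2 : P.H (fun ω => (x ω, (F.labs τ (c ω) (x ω), c ω))) ≤
      P.H (fun ω => (F.a (c ω j) (x ω), (F.b (c ω j) (x ω), (F.labs τ (c ω) (x ω), c ω)))) := by
    apply L.mon.1
    intro ω ω' hω hω' h
    simp only [Prod.mk.injEq] at h ⊢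
    obtain ⟨ha, hb, hl, hc⟩ := h
    refine ⟨?_, hl, hc⟩
    have s1 := F.sub (c ω j) (x ω) (hD ω hω j)
    have s2 := F.sub (c ω' j) (x ω') (hD ω' hω' j)
    rw [← s1, ← s2, ha, hb]
  unfold Law.C at h1 ⊢
  linarith

lemma step (L : Lib) (τ : Fin R → Option Bool) (j : Fin R) (hj : τ j = none) :
    P.C (fun ω => F.a (c ω j) (x ω)) (fun ω => (F.labs τ (c ω) (x ω), c ω)) +
      P.C (fun ω => F.b (c ω j) (x ω)) (fun ω => (F.labs τ (c ω) (x ω), c ω)) -
      P.C x (fun ω => (F.labs τ (c ω) (x ω), c ω)) =
    P.C x (fun ω => (F.labs τ (c ω) (x ω), c ω)) -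
      P.C x (fun ω => (F.labs (Function.update τ j (some true)) (c ω) (x ω), c ω)) -
      P.C x (fun ω => (F.labs (Function.update τ j (some false)) (c ω) (x ω), c ω)) := by
  have h1 := E_update F P x c L τ j hj true
  have h2 := E_update F P x c L τ j hj false
  have e1 : (fun ω => F.lab true (c ω j) (x ω)) = (fun ω => F.a (c ω j) (x ω)) := by
    funext ω; simp [Fam.lab]
  have e2 : (fun ω => F.lab false (c ω j) (x ω)) = (fun ω => F.b (c ω j) (x ω)) := by
    funext ω; simp [Fam.lab]
  rw [e1] at h1
  rw [e2] at h2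
  linarith

end

lemma sum_split {R : ℕ} (μ : (Fin R → Bool) → ℝ) (τ : Fin R → Option Bool) (j : Fin R)
    (hj : τ j = none) :
    (∑ ε : Fin R → Bool, if (∀ i σ, τ i = some σ → ε i = σ) then μ ε else 0) =
      (∑ ε : Fin R → Bool, if (∀ i σ, Function.update τ j (some true) i = some σ → ε i = σ)
        then μ ε else 0) +
      (∑ ε : Fin R → Bool, if (∀ i σ, Function.update τ j (some false) i = some σ → ε i = σ)
        then μ ε else 0) := by
  rw [← Finset.sum_add_distrib]
  refine Finset.sum_congr rfl fun ε _ => ?_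
  have key : ∀ s : Bool, (∀ i σ, Function.update τ j (some s) i = some σ → ε i = σ) ↔
      ((∀ i σ, τ i = some σ → ε i = σ) ∧ ε j = s) := by
    intro s
    constructor
    · intro h
      refine ⟨fun i σ hi => ?_, h j s (by simp)⟩
      have hij : i ≠ j := by
        rintro rfl
        rw [hj] at hi
        exact absurd hi (by simp)
      exact h i σ (by rw [Function.update_of_ne hij]; exact hi)
    · rintro ⟨h, hs⟩ i σ hi
      by_cases hij : i = j
      · subst hij
        rw [Function.update_self] at hi
        rw [hs]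
        exact Option.some_injective _ hi
      · rw [Function.update_of_ne hij] at hi
        exact h i σ hi
  simp only [key]
  by_cases h : (∀ i σ, τ i = some σ → ε i = σ)
  · cases hε : ε j <;> simp
  · rw [if_neg h, if_neg (fun hh => h hh.1), if_neg (fun hh => h hh.1), add_zero]

lemma sum_full {R : ℕ} (μ : (Fin R → Bool) → ℝ) (ε0 : Fin R → Bool) :
    (∑ ε : Fin R → Bool, if (∀ i σ, (fun i => some (ε0 i)) i = some σ → ε i = σ)
      then μ ε else 0) = μ ε0 := by
  rw [Finset.sum_eq_single ε0]
  · rw [if_pos]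
    intro i σ h
    exact Option.some_injective _ h
  · intro ε _ hne
    rw [if_neg]
    intro h
    apply hne
    funext i
    exact h i (ε0 i) rfl
  · intro h
    exact absurd (Finset.mem_univ _) h

theorem boo (L : Lib) : BooStmt := by
  intro G _ _ _ n F η R Ω _ P x c hη hD hI
  -- induction on the number of unassigned classes
  have main : ∀ u : ℕ, ∀ τ : Fin R → Option Bool,
      (Finset.univ.filter (fun i => τ i = none)).card = u →
      (∑ ε : Fin R → Bool, if (∀ i σ, τ i = some σ → ε i = σ) then
        P.C x (fun ω => (F.labs (fun i => some (ε i)) (c ω) (x ω), c ω)) else 0)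
        ≤ P.C x (fun ω => (F.labs τ (c ω) (x ω), c ω)) ∧
      P.C x (fun ω => (F.labs τ (c ω) (x ω), c ω)) ≤
      (∑ ε : Fin R → Bool, if (∀ i σ, τ i = some σ → ε i = σ) then
        P.C x (fun ω => (F.labs (fun i => some (ε i)) (c ω) (x ω), c ω)) else 0) +
          (2 ^ u - 1) * η := by
    intro u
    induction u with
    | zero =>
      intro τ hu
      rw [Finset.card_eq_zero, Finset.filter_eq_empty_iff] at hu
      have hsome : ∀ i, ∃ s, τ i = some s := by
        intro i
        exact Option.ne_none_iff_exists'.mp (hu (Finset.mem_univ i))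
      choose ε0 hε0 using hsome
      have hτ : τ = fun i => some (ε0 i) := funext hε0
      rw [hτ]
      have := sum_full (fun ε => P.C x (fun ω => (F.labs (fun i => some (ε i)) (c ω) (x ω), c ω))) ε0
      rw [this]
      simp
    | succ u ih =>
      intro τ hu
      have hne : (Finset.univ.filter (fun i => τ i = none)).Nonempty := by
        rw [← Finset.card_pos]; omega
      obtain ⟨j, hj'⟩ := hne
      have hj : τ j = none := (Finset.mem_filter.mp hj').2
      have hcard : ∀ s : Bool, (Finset.univ.filter
          (fun i => Function.update τ j (some s) i = none)).card = u := by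
        intro s
        have : Finset.univ.filter (fun i => Function.update τ j (some s) i = none) =
            (Finset.univ.filter (fun i => τ i = none)).erase j := by
          ext i
          simp only [Finset.mem_filter, Finset.mem_univ, true_and, Finset.mem_erase]
          by_cases hij : i = j
          · subst hij; simp
          · rw [Function.update_of_ne hij]; simp [hij]
        rw [this, Finset.card_erase_of_mem hj']
        omega
      obtain ⟨a1, a2⟩ := ih _ (hcard true)
      obtain ⟨b1, b2⟩ := ih _ (hcard false)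
      have hst := step F P x c L τ j hj
      have hIj := hI τ j hj
      have hI0 := I_nonneg F P x c L hD τ j
      rw [sum_split _ τ j hj]
      rw [hst] at hIj
      constructor
      · linarith
      · have : ((2 : ℝ) ^ (u + 1) - 1) * η = (2 ^ u - 1) * η + (2 ^ u - 1) * η + η := by
          rw [pow_succ]; ring
        rw [this]
        linarith
  intro τ
  obtain ⟨h1, h2⟩ := main _ τ rfl
  refine ⟨h1, h2.trans ?_⟩
  have hle : (Finset.univ.filter (fun i => τ i = none)).card ≤ R := by
    have := Finset.card_filter_le (Finset.univ : Finset (Fin R)) (fun i => τ i = none)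
    simpa using this
  have hpow : (2 : ℝ) ^ (Finset.univ.filter (fun i => τ i = none)).card ≤ 2 ^ R :=
    pow_le_pow_right₀ (by norm_num) hle
  have : ((2 : ℝ) ^ (Finset.univ.filter (fun i => τ i = none)).card - 1) * η ≤ 2 ^ R * η :=
    mul_le_mul_of_nonneg_right (by linarith) hη
  linarith

end Pool.Agent.TF.H92
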